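import Pool.Agent.H43.KMArea

set_option autoImplicit false

namespace Pool.Agent.Results.MP_b76267_pr.Smaller

open MeasureTheory Real Filter Topology Pool.Agent.H43.KM
open scoped ENNReal ContDiff

lemma exists_inv (δ : ℝ) (h0 : 0 < δ) (h1 : δ ≤ 1 / 100) : ∃ ψ : ℝ → ℝ, ContDiff ℝ ∞ ψ ∧
    (∀ t, ψ t + δ * sin (2 * π * ψ t) = t) ∧ (∀ t, ψ (t + 1) = ψ t + 1) ∧ ∀ t, ψ (-t) = -ψ t := by
  let φ : ℝ → ℝ := fun a => a + δ * sin (2 * π * a)
  have hd : ∀ a, HasDerivAt φ (1 + δ * (cos (2 * π * a) * (2 * π))) a := by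
    intro a
    have h2 : HasDerivAt (fun a : ℝ => 2 * π * a) (2 * π) a := by
      simpa using (hasDerivAt_id a).const_mul (2 * π)
    exact (hasDerivAt_id a).add (h2.sin.const_mul δ)
  have hp : ∀ a, 0 < 1 + δ * (cos (2 * π * a) * (2 * π)) := by
    intro a
    have h2 : -8 ≤ cos (2 * π * a) * (2 * π) := by
      nlinarith [neg_one_le_cos (2 * π * a), pi_pos, pi_le_four]
    nlinarith
  have hm : StrictMono φ := strictMono_of_deriv_pos fun a => by rw [(hd a).deriv]; exact hp a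
  have hc : ContDiff ℝ ∞ φ := by unfold φ; fun_prop
  have hb : ∀ a, a - 1 ≤ φ a ∧ φ a ≤ a + 1 := fun a => by
    constructor <;> simp only [φ] <;> nlinarith [neg_one_le_sin (2 * π * a), sin_le_one (2 * π * a)]
  have hs : Function.Surjective φ := hc.continuous.surjective
    (tendsto_atTop_mono (fun a => (hb a).1) (tendsto_atTop_add_const_right _ (-1) tendsto_id))
    (tendsto_atBot_mono (fun a => (hb a).2) (tendsto_atBot_add_const_right _ 1 tendsto_id))
  let e : ℝ ≃ₜ ℝ := (hm.orderIsoOfSurjective φ hs).toHomeomorph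
  have he : ∀ t, φ (e.symm t) = t := fun t => e.apply_symm_apply t
  refine ⟨e.symm, e.contDiff_symm_deriv (fun a => (hp a).ne') hd hc, he, fun t => hm.injective ?_,
    fun t => hm.injective ?_⟩
  · have := he t
    rw [he]
    simp only [φ] at this ⊢
    rw [mul_add, mul_one, sin_add_two_pi]; linarith
  · have := he t
    rw [he]
    simp only [φ] at this ⊢
    rw [mul_neg, sin_neg]; linarith

lemma null_levels (u : ℝ → ℝ) (hu : Differentiable ℝ u) :
    volume {x : E4 | sin (π * (x 0 + x 1 + x 2 + x 3 - u (x 0))) = 0} = 0 := by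
  let L : E4 →ₗ[ℝ] ℝ := (EuclideanSpace.proj (3 : Fin 4) : E4 →L[ℝ] ℝ).toLinearMap
  have h1 : volume (LinearMap.ker L : Set E4) = 0 := by
    refine Measure.addHaar_submodule _ _ fun h => ?_
    have h2 : EuclideanSpace.single 3 (1 : ℝ) ∈ LinearMap.ker L := h ▸ Submodule.mem_top
    simp [L] at h2
  let Φ : ℤ → E4 → E4 := fun k x =>
    x + (k + u (x 0) - x 0 - x 1 - x 2) • EuclideanSpace.single 3 (1 : ℝ)
  refine measure_mono_null (t := ⋃ k, Φ k '' (LinearMap.ker L : Set E4)) (fun x hx => ?_)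
    (measure_iUnion_null fun k =>
      addHaar_image_eq_zero_of_differentiableOn_of_addHaar_eq_zero _ ?_ h1)
  · obtain ⟨k, hk⟩ := sin_eq_zero_iff.1 hx
    have h2 := mul_left_cancel₀ pi_ne_zero ((mul_comm _ _).trans hk)
    refine Set.mem_iUnion.2 ⟨k, x - x 3 • EuclideanSpace.single 3 (1 : ℝ), by simp [L], ?_⟩
    ext i
    fin_cases i <;> simp [Φ]
    linarith
  · refine Differentiable.differentiableOn ?_
    unfold Φ
    fun_prop

lemma periodic (u : ℝ → ℝ) (hu : Differentiable ℝ u) (h1 : ∀ t, u (t + 1) = u t)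
    (h2 : ∀ t, u (-t) = -u t) : Periodic (Om u) := by
  have h0 := measure_eq_zero_iff_ae_notMem.1 (null_levels u hu)
  have key : ∀ s : ℝ, s ≠ 0 → (0 ≤ -s ↔ ¬ 0 ≤ s) := fun s hs =>
    ⟨fun h h' => hs (by linarith), fun h => by linarith [not_le.1 h]⟩
  refine ⟨fun i => ?_, ?_⟩
  · filter_upwards [h0] with x hx
    rw [Set.image_add_right]
    refine propext (Iff.trans ?_ (key _ hx))
    have h3 : u ((x + -EuclideanSpace.single i (1 : ℝ) : E4) 0) = u (x 0) := by
      fin_cases i <;> simp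
      rw [← h1]; simp
    change 0 ≤ sin _ ↔ _
    rw [h3, ← sin_sub_pi]
    congr! 2
    fin_cases i <;> simp <;> ring
  · filter_upwards [h0] with x hx
    rw [Set.image_neg_eq_neg]
    refine propext (Iff.trans ?_ (key _ hx))
    change 0 ≤ sin _ ↔ _
    rw [← sin_neg]
    congr! 2
    simp [h2]; ring

theorem result : ∃ (Ω : Set (EuclideanSpace ℝ (Fin 4))) (u : ℝ → ℝ), Periodic Ω ∧
    ContDiff ℝ ∞ u ∧ frontier Ω = {x | ∃ k : ℤ, x 3 = k + u (x 0) - x 0 - x 1 - x 2} ∧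
    area Ω < area (halfSpace fun _ : Fin 4 => 1) := by
  obtain ⟨δ0, h0, h1⟩ := area_lt
  have hδ : 0 < min δ0 (1 / 100) := by positivity
  obtain ⟨ψ, hψ, e1, e2, e3⟩ := exists_inv _ hδ (min_le_right _ _)
  have hu : ContDiff ℝ ∞ fun t => 4 * (t - ψ t) := by fun_prop
  have hf := frontier_Om _ hu.continuous
  refine ⟨Om fun t => 4 * (t - ψ t), _, periodic _ (hu.differentiable (by simp))
    (fun t => by rw [e2]; ring) fun t => by rw [e3]; ring, hu, hf, ?_⟩
  have h2 : (halfSpace fun _ : Fin 4 => 1) = Om fun _ => 0 := by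
    ext x; simp [halfSpace, Om, Fin.sum_univ_four]
  rw [h2]
  refine h1 _ hδ (min_le_left _ _) _ ?_
  rw [hf]
  rintro x ⟨k, hk⟩
  have h3 := e1 (x 0)
  generalize min δ0 (1 / 100) = δ at h3
  have h4 : a k !₂[(x 0 + x 1 - x 2 - x 3) / 2, (x 0 - x 1 + x 2 - x 3) / 2,
      (x 0 - x 1 - x 2 + x 3) / 2] = ψ (x 0) := by
    simp [a]; linarith
  refine Set.mem_iUnion.2 ⟨k, !₂[(x 0 + x 1 - x 2 - x 3) / 2, (x 0 - x 1 + x 2 - x 3) / 2,
      (x 0 - x 1 - x 2 + x 3) / 2], ?_⟩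
  ext i
  unfold R
  rw [h4]
  fin_cases i <;> simp <;> linarith

end Pool.Agent.Results.MP_b76267_pr.Smaller
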